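import Pool.Agent.TH990.FU.Geo
import Pool.Agent.TH990.FU.CovF
import Pool.Agent.W978.PD.UL

/-!
Accessible points of the limits of the closed lattice path which traces the outer boundary of the
largest critical cluster.
-/

set_option autoImplicit false

namespace Pool.Agent.Y997.OB

open H974 H12S Finset H389NS H984P H984N H342P H342L H342T
open MeasureTheory Filter Topology Measure Pool.Agent.W92.DP Pool.Agent.W822.PD
open Pool.Agent.W462.DPL Pool.Agent.W424.OD Pool.Agent.TH990.FU Pool.Agent.W978.PDUL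
open scoped ENNReal NNReal

/-- The curves whose paths are in `Ev3`. -/
def CE (z : ℂ) (r ρ ζ : ℝ) : Set Curve := {c | c.path ∈ Ev3 z r ρ ζ}

theorem CE_open (z : ℂ) (r ρ ζ : ℝ) : IsOpen (CE z r ρ ζ) := by
  rw [Metric.isOpen_iff]
  intro c hc
  obtain ⟨ε, hε, h⟩ := Ev3_near (f := c.path) hc
  refine ⟨ε, hε, fun c' hcc' => ?_⟩
  rw [Metric.mem_ball, Curve.dist_def, cdist_eq] at hcc'
  obtain ⟨φ, hφ⟩ := exists_lt_of_ciInf_lt hcc'
  refine h c'.path φ.toEquiv fun x => ?_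
  exact (ContinuousMap.dist_apply_le_dist (f := c'.path) (g := rep c.path φ) x).trans_lt hφ

/-- The curves whose paths are in `E3U`. -/
def CU (z : ℂ) (r ρ : ℝ) : Set Curve := {c | c.path ∈ E3U z r ρ}

theorem CU_eq (z : ℂ) (r ρ : ℝ) : CU z r ρ = ⋃ j : ℕ, CE z r ρ (1 / ((j:ℝ) + 1)) := by
  ext c
  unfold CU CE E3U
  simp only [Set.mem_ofPred_eq, Set.mem_iUnion]

theorem CU_open (z : ℂ) (r ρ : ℝ) : IsOpen (CU z r ρ) := by
  rw [CU_eq]
  exact isOpen_iUnion fun j => CE_open _ _ _ _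

theorem zp_pt (n : ℕ) (v : Vtx) : zp (1 / (n:ℝ)) 0 v = pt n v := by
  apply Complex.ext
  · rw [pt_re]
    show (0 : ℝ) + 1 / n * v.1 = _
    ring
  · rw [pt_im]
    show (0 : ℝ) + 1 / n * v.2 = _
    ring

theorem vz_ctc (δ : ℝ) (z : ℂ) : vz δ 0 z = ctc δ z := by
  unfold vz ctc
  rw [Complex.zero_re, Complex.zero_im, sub_zero, sub_zero]

theorem orb_mod {F : Set Edg} {σ : St} {N : ℕ} (h : orb F σ N = σ) (t : ℕ) :
    orb F σ t = orb F σ (t % N) := by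
  have key : ∀ m s : ℕ, orb F σ (s + N * m) = orb F σ s := by
    intro m
    induction m with
    | zero => intro s; rw [mul_zero, add_zero]
    | succ m ih =>
      intro s
      have e : s + N * (m + 1) = (s + N * m) + N := by ring
      rw [e, orb_add, h, ih]
  conv_lhs => rw [← Nat.mod_add_div t N]
  exact key _ _

theorem orb_freach {F : Set Edg} (σ : St) (t : ℕ) :
    Reach (dl '' Fᶜ) (face σ) (face (orb F σ t)) := by
  rw [reach_dl]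
  have h := orb_dreach (F := F) (W := Set.univ) (σ := σ) (T := t) (fun _ _ => Set.mem_univ _)
    le_rfl
  rw [← Set.compl_eq_univ_sdiff] at h
  exact h

/-- The nodes are on the polygonal path. -/
theorem poly_node {f : ℕ → ℂ} {N : ℕ} {j : ℕ} (hj : j < N) : ∃ x, poly f N x = f j := by
  have h := (t_POL f N (by omega)).2.2.1
  have h2 : f j ∈ Set.range (poly f N) := by
    rw [h]
    simp only [Set.mem_iUnion, Finset.mem_range, exists_prop]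
    exact ⟨j, hj, left_mem_segment _ _ _⟩
  exact h2

/-- **the deterministic part** -/
theorem detP {z : ℂ} {r d ζ : ℝ} {n : ℕ} (hn : 0 < n) (hδr : 1 / (n : ℝ) ≤ r)
    (hd : 256 * r ≤ d) (hζ : 8 * (1 / (n : ℝ)) ≤ ζ) {F : Finset Edg} {v : ℤ × ℤ} {c : Curve}
    (hT : IsTrace n F v c) (hE : c ∈ CE z r (d / 2) ζ) :
    A3v (ctc (1 / n) z) (⌈r / (1 / (n : ℝ))⌉₊ + 3 + 2) (⌊d / (8 * (1 / (n : ℝ)))⌋₊ - 2) ↑F ∨
      A3v (ctc (1 / n) z) (⌈r / (1 / (n : ℝ))⌉₊ + 3 + 2) (⌊d / (8 * (1 / (n : ℝ)))⌋₊ - 2)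
        (dl '' (↑F : Set Edg)ᶜ) := by
  have hδ : (0:ℝ) < 1 / n := by positivity
  obtain ⟨⟨s, hs⟩, ⟨s', hs'⟩, g, hg0, hg1, hg⟩ := hE
  obtain ⟨σ, N, hN, _, _, hper, _, hpath⟩ := hT
  rw [hpath] at hs hs'
  have hst' : ∀ k < N, dist (pt n (orb (↑F) σ k).1) (pt n (orb (↑F) σ (k + 1)).1) ≤ 1 / (n : ℝ) :=
    fun k _ => pt_step' hn _ σ k
  obtain ⟨i, hiN, -, hi⟩ := poly_close hN hst' s
  obtain ⟨j, hjN, -, hj⟩ := poly_close hN hst' s'
  have hmain := det_gen (o := 0) (z := z) (r := r) (d := d) hδ hδr hd (C := (↑F : Set Edg))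
    (A := {τ | ∃ t, orb (↑F : Set Edg) σ t = τ}) (P17.inv F σ) hs hs' (g := g) hg0 hg1.le ?_
    (σ := orb (↑F) σ i) (τ := orb (↑F) σ j) ⟨i, rfl⟩ ?_ ?_ ?_ ?_
  · rw [vz_ctc] at hmain
    exact hmain
  · intro t u hu q hq
    obtain ⟨k, hk⟩ := hq
    rw [orb_mod hper k] at hk
    obtain ⟨x, hx⟩ := poly_node (f := fun j => pt n (orb (↑F) σ j).1) (Nat.mod_lt k hN)
    have h1 := hg x t
    rw [hpath, hx] at h1
    simp only [hk] at h1
    have h2 := hu.dist hδ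
    rw [zp_pt] at h2
    linarith
  · rw [zp_pt]
    linarith
  · rw [zp_pt]
    linarith
  · exact (P17.orb_vertex i).symm.trans (P17.orb_vertex j)
  · exact (orb_freach σ i).symm.trans (orb_freach σ j)

/-- the probability bound -/
theorem probP (hU : U3) {sel : (n : ℕ) → Finset Plain.Edge → ℤ × ℤ}
    {γ : (n : ℕ) → Finset Plain.Edge → Curve} (hT : Tr sel γ) :
    ∃ C : ℝ, 0 < C ∧ ∀ (z : ℂ) (r d ζ : ℝ) (n : ℕ), 0 < r → r ≤ d →
      Metric.ball z d ⊆ Sq → 0 < n → 1 / (n : ℝ) ≤ r → 8 * (1 / (n : ℝ)) ≤ ζ →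
        (lawOf n (γ n) : Measure Curve) (CE z r (d / 2) ζ) ≤
          ENNReal.ofReal (C * (r / d) ^ (2/3 : ℝ)) := by
  obtain ⟨Cd, hCd, hD'⟩ := u3d hU
  obtain ⟨Ca, hCa, hA'⟩ := hU
  refine ⟨(Ca + Cd + 1) * 256 ^ (2/3 : ℝ), by positivity, ?_⟩
  intro z r d ζ n hr hrd hball hn hδr hζ
  have hδ : (0:ℝ) < 1 / n := by positivity
  have hd0 : 0 < d := hr.trans_le hrd
  rw [lawOf_apply _ _ (CE_open z r (d / 2) ζ).measurableSet]
  apply ENNReal.ofReal_le_ofReal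
  have hq : 0 < r / d := by positivity
  have hRHS : (Ca + Cd + 1) * 256 ^ (2/3 : ℝ) * (r / d) ^ (2/3 : ℝ) =
      (Ca + Cd + 1) * (256 * (r / d)) ^ (2/3 : ℝ) := by
    rw [Real.mul_rpow (by norm_num) hq.le]
    ring
  rw [hRHS]
  by_cases h256 : 256 * r ≤ d
  · obtain ⟨s1, s2, s3, s4⟩ := sizes hδ hδr h256
    obtain ⟨b1, b2, b3, b4⟩ := dom_boxC hn (by linarith) hball
    have hsub : blk (ctc (1 / n) z) ⌊d / (8 * (1 / (n : ℝ)))⌋₊ ⊆ RE 0 n 0 n :=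
      RE_subset b1.le b2.le b3.le b4.le
    have hsub1 : ∀ k : ℕ, k ≤ ⌊d / (8 * (1 / (n : ℝ)))⌋₊ →
        blk (ctc (1 / n) z) k ⊆ RE 0 n 0 n := by
      intro k hk
      refine (RE_subset ?_ ?_ ?_ ?_).trans hsub <;> omega
    have h1 := hA' (ctc (1 / n) z) (⌈r / (1 / (n : ℝ))⌉₊ + 3 + 2)
      (⌊d / (8 * (1 / (n : ℝ)))⌋₊ - 2) (by omega) s2 (RE 0 n 0 n) (hsub1 _ (by omega))
    have h2 := hD' (ctc (1 / n) z) (⌈r / (1 / (n : ℝ))⌉₊ + 3 + 2)
      (⌊d / (8 * (1 / (n : ℝ)))⌋₊ - 2) (by omega) s2 (RE 0 n 0 n) (hsub1 _ (by omega))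
    have hmono : Plain.prob n (fun F => γ n F ∈ CE z r (d / 2) ζ) ≤
        PQ (1/2) (RE 0 n 0 n) (fun F =>
          A3v (ctc (1 / n) z) (⌈r / (1 / (n : ℝ))⌉₊ + 3 + 2)
            (⌊d / (8 * (1 / (n : ℝ)))⌋₊ - 2) ↑F ∨
          A3v (ctc (1 / n) z) (⌈r / (1 / (n : ℝ))⌉₊ + 3 + 2)
            (⌊d / (8 * (1 / (n : ℝ)))⌋₊ - 2) (dl '' (↑F : Set Edg)ᶜ)) := by
      refine Plain.prob_le_of_pr ?_
      intro F hF hE
      exact detP hn hδr h256 hζ (hT.2 n F hn hF) hE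
    have hor := Pr_or_le okh (RE 0 n 0 n)
      (fun F => A3v (ctc (1 / n) z) (⌈r / (1 / (n : ℝ))⌉₊ + 3 + 2)
        (⌊d / (8 * (1 / (n : ℝ)))⌋₊ - 2) ↑F)
      (fun F => A3v (ctc (1 / n) z) (⌈r / (1 / (n : ℝ))⌉₊ + 3 + 2)
        (⌊d / (8 * (1 / (n : ℝ)))⌋₊ - 2) (dl '' (↑F : Set Edg)ᶜ))
    have hpow : (((⌈r / (1 / (n : ℝ))⌉₊ + 3 + 2 : ℕ) : ℝ) /
        ((⌊d / (8 * (1 / (n : ℝ)))⌋₊ - 2 : ℕ) : ℝ)) ^ (2/3 : ℝ) ≤
        (256 * (r / d)) ^ (2/3 : ℝ) :=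
      Real.rpow_le_rpow (by positivity) s4 (by norm_num)
    have hx0 : 0 ≤ (256 * (r / d)) ^ (2/3 : ℝ) := by positivity
    have h3 := mul_le_mul_of_nonneg_left hpow hCa.le
    have h4 := mul_le_mul_of_nonneg_left hpow hCd.le
    have h5 := hmono.trans (hor.trans (add_le_add (h1.trans h3) (h2.trans h4)))
    refine h5.trans ?_
    nlinarith
  · push Not at h256
    have h1 : Plain.prob n (fun F => γ n F ∈ CE z r (d / 2) ζ) ≤ 1 := by
      rw [Plain.prob_eq]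
      exact Pr_le_one okh _ _
    refine h1.trans ?_
    have h2 : 1 ≤ 256 * (r / d) := by
      rw [← mul_div_assoc, le_div_iff₀ hd0]
      linarith
    have h3 : 1 ≤ (256 * (r / d)) ^ (2/3 : ℝ) := Real.one_le_rpow h2 (by norm_num)
    nlinarith

/-- the bound for the limit -/
theorem limP (hU : U3) {sel : (n : ℕ) → Finset Plain.Edge → ℤ × ℤ}
    {γ : (n : ℕ) → Finset Plain.Edge → Curve} (hT : Tr sel γ) :
    ∃ C : ℝ, 0 < C ∧ ∀ (k : ℕ → ℕ), Tendsto k atTop atTop →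
      ∀ μ : ProbabilityMeasure Curve, Tendsto (fun i => lawOf (k i) (γ (k i))) atTop (𝓝 μ) →
      ∀ (z : ℂ) (r d : ℝ), 0 < r → r ≤ d → Metric.ball z d ⊆ Sq →
        (μ : Measure Curve) (CU z r (d / 2)) ≤ ENNReal.ofReal (C * (r / d) ^ (2 / 3 : ℝ)) := by
  obtain ⟨C, hC, hP⟩ := probP hU hT
  refine ⟨C, hC, fun k hk μ hμ z r d hr hrd hball => ?_⟩
  have hmono : Monotone (fun j : ℕ => CE z r (d / 2) (1 / ((j:ℝ) + 1))) :=
    fun i j hij c hc => Ev3_anti (Nat.one_div_le_one_div hij) hc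
  rw [CU_eq, hmono.measure_iUnion]
  refine iSup_le fun j => ?_
  refine (ProbabilityMeasure.le_liminf_measure_open_of_tendsto hμ (CE_open _ _ _ _)).trans ?_
  refine liminf_le_of_frequently_le (Eventually.frequently ?_)
  have hpos : 0 < min r (1 / ((j:ℝ) + 1) / 8) := lt_min hr (by positivity)
  obtain ⟨n0, hn0⟩ := exists_nat_gt (1 / min r (1 / ((j:ℝ) + 1) / 8))
  have hev : ∀ᶠ i in atTop, max n0 1 ≤ k i := tendsto_atTop.mp hk _
  filter_upwards [hev] with i hi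
  rw [max_le_iff] at hi
  have hki : 0 < k i := hi.2
  have hki' : (0:ℝ) < k i := by exact_mod_cast hki
  have h6 : (n0 : ℝ) ≤ k i := by exact_mod_cast hi.1
  have h7 : 1 / (k i : ℝ) ≤ min r (1 / ((j:ℝ) + 1) / 8) := by
    rw [div_lt_iff₀ hpos] at hn0
    rw [div_le_iff₀ hki']
    nlinarith
  exact hP z r d _ (k i) hr hrd hball hki (h7.trans (min_le_left _ _))
    (by have := h7.trans (min_le_right _ _); linarith)

/-- **Accessible points in a fixed set.** -/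
theorem acc_fixed (hU : U3) {sel : (n : ℕ) → Finset Plain.Edge → ℤ × ℤ}
    {γ : (n : ℕ) → Finset Plain.Edge → Curve} (hT : Tr sel γ) {k : ℕ → ℕ}
    (hk : Tendsto k atTop atTop) {μ : ProbabilityMeasure Curve}
    (hμ : Tendsto (fun i => lawOf (k i) (γ (k i))) atTop (𝓝 μ)) (A : Set ℂ) :
    ∀ᵐ c : Curve ∂(μ : Measure Curve),
      dimH ((⋃ i : ℕ, Acc (1 / ((i:ℝ) + 1)) c.path) ∩ A ∩ Sq) ≤
        dimH A - ENNReal.ofReal (2 / 3) ∧
      (μH[2 / 3] A = 0 → (⋃ i : ℕ, Acc (1 / ((i:ℝ) + 1)) c.path) ∩ A ∩ Sq = ∅) := by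
  obtain ⟨C, hC, hP⟩ := limP hU hT
  refine fixed_dim (E := fun d z r => CU z r (d / 2)) (fun d z r => (CU_open _ _ _).measurableSet)
    (S := fun η c => Acc η c.path) ?_ Sq_open hC.le (by norm_num)
    (fun z r d hr hrd hb => hP k hk μ hμ z r d hr hrd hb) A
  intro η d z r w c hdη hrd hw hwz
  exact E3U_of hw hwz (by linarith)

end Pool.Agent.Y997.OB
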