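import Pool.Agent.Y997.OB.Det
import Pool.Agent.W424.KI.Fin
import Pool.Agent.W597.PDBL
import Pool.Agent.W320.PD.HB
import Pool.Agent.Results.MP_6bd702_pr.LimitCurves

/-!
Boundaries of the components of the complement of the limits of the outer perimeter of the largest
critical cluster.
-/

set_option autoImplicit false

namespace Pool.Agent.Y997.OB

open H974 H12S Finset H389NS H984P H984N H342P H342L H342T
open MeasureTheory Filter Topology Measure Pool.Agent.W92.DP Pool.Agent.W822.PD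
open Pool.Agent.W462.DPL Pool.Agent.W424.OD Pool.Agent.TH990.FU Pool.Agent.W978.PDUL
open scoped ENNReal NNReal

/-- The outer boundary is accessible. -/
theorem oB_acc {f : C(unitInterval, ℂ)} (hne : ∃ s t, f s ≠ f t) :
    oB (Set.range f) ⊆ ⋃ i : ℕ, Acc (1 / ((i:ℝ) + 1)) f := by
  intro w hw
  have hK : IsCompact (Set.range f) := isCompact_range f.continuous
  have hwK : w ∈ Set.range f := oB_sub hK.isClosed hw
  obtain ⟨s0, t0, hst⟩ := hne
  have h3 : ∃ u, f u ≠ w := by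
    by_contra hcon
    push Not at hcon
    exact hst ((hcon s0).trans (hcon t0).symm)
  obtain ⟨u, hu⟩ := h3
  obtain ⟨i, hi⟩ := exists_nat_one_div_lt (lt_min one_pos (dist_pos.2 hu))
  refine Set.mem_iUnion.2 ⟨i, hwK, ⟨u, (hi.le.trans (min_le_right _ _))⟩, fun r hr => ?_⟩
  obtain ⟨g, hg0, hg1, ζ, hζ, hg⟩ := exists_path hK hw hr (‖w‖ + 1)
  refine ⟨g, hg0, ?_, fun t ht => ?_⟩
  · have h1 : ‖g 1‖ - ‖w‖ ≤ dist (g 1) w := by
      rw [dist_eq_norm]
      exact norm_sub_norm_le _ _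
    have h2 := hi.le.trans (min_le_left _ _)
    linarith
  · have := hg t _ ht
    rw [dist_self] at this
    linarith

theorem univ_dim : dimH (Set.univ : Set ℂ) - ENNReal.ofReal (2 / 3) = 4 / 3 := by
  rw [Real.dimH_univ_eq_finrank, Complex.finrank_real_complex, Nat.cast_ofNat, ← e43']
  have h : (2 : ℝ≥0∞) = ENNReal.ofReal 2 := by norm_num
  rw [h, ← ENNReal.ofReal_sub _ (by norm_num)]
  norm_num

variable {sel : (n : ℕ) → Finset Plain.Edge → ℤ × ℤ} {γ : (n : ℕ) → Finset Plain.Edge → Curve}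

/-- The limits are not constant. -/
theorem nonconst (hT : Tr sel γ) {k : ℕ → ℕ} (hk : Tendsto k atTop atTop)
    {μ : ProbabilityMeasure Curve} (hμ : Tendsto (fun i => lawOf (k i) (γ (k i))) atTop (𝓝 μ)) :
    ∀ᵐ c : Curve ∂(μ : Measure Curve), ∃ s t, c.path s ≠ c.path t := by
  have h := ((Pool.Agent.Results.MP_6bd702_pr.LimitCurves.result).2 sel hT.1).2 γ
    (fun n F hn hF => ((Pool.Agent.Results.MP_6bd702_pr.LimitCurves.result).1 n F (sel n F) hn hF
      (hT.1 n F hn hF).1).2 _ (hT.2 n F hn hF)) k μ hk hμ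
  filter_upwards [h] with c hc
  by_contra hcon
  push Not at hcon
  have h1 : Set.range c.path ⊆ {c.path 0} := by
    rintro _ ⟨t, rfl⟩
    exact hcon t 0
  have h2 := dimH_mono h1
  rw [hc.2.1, dimH_singleton] at h2
  exact absurd h2 (not_le.2 (ENNReal.div_pos (by norm_num) (by norm_num)))

/-- The points of the boundary of the square. -/
theorem bdry (hT : Tr sel γ) {k : ℕ → ℕ} (hk : Tendsto k atTop atTop)
    {μ : ProbabilityMeasure Curve} (hμ : Tendsto (fun i => lawOf (k i) (γ (k i))) atTop (𝓝 μ)) :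
    ∀ᵐ c : Curve ∂(μ : Measure Curve), dimH (Set.range c.path \ Sq) ≤ ENNReal.ofReal (2/3) := by
  have h1 : ∀ᵐ c : Curve ∂(μ : Measure Curve), ∀ i : ℕ, Set.range c.path ⊆ Sqc ∧
      dimH {z | z ∈ Set.range c.path ∧ z ∈ Sqc \ Sq ∧ ∃ u, 1 / ((i:ℝ) + 1) ≤ dist (c.path u) z} ≤
        ENNReal.ofReal (2/3) := by
    rw [ae_all_iff]
    intro i
    exact Pool.Agent.W597.PDBL.bl Pool.Agent.W320.PD.HB.hb sel γ hT k hk μ hμ _ (by positivity)
  filter_upwards [h1, nonconst hT hk hμ] with c hc hne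
  have hsub : Set.range c.path \ Sq ⊆ ⋃ i : ℕ, {z | z ∈ Set.range c.path ∧ z ∈ Sqc \ Sq ∧
      ∃ u, 1 / ((i:ℝ) + 1) ≤ dist (c.path u) z} := by
    rintro w ⟨hw, hwS⟩
    obtain ⟨s0, t0, hst⟩ := hne
    have h3 : ∃ u, c.path u ≠ w := by
      by_contra hcon
      push Not at hcon
      exact hst ((hcon s0).trans (hcon t0).symm)
    obtain ⟨u, hu⟩ := h3
    obtain ⟨i, hi⟩ := exists_nat_one_div_lt (dist_pos.2 hu)
    exact Set.mem_iUnion.2 ⟨i, hw, ⟨(hc 0).1 hw, hwS⟩, u, hi.le⟩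
  refine (dimH_mono hsub).trans ?_
  rw [dimH_iUnion]
  exact iSup_le fun i => (hc i).2

/-- **Boundaries of components, outer boundary: upper bounds.** -/
theorem main (hT : Tr sel γ) {k : ℕ → ℕ} (hk : Tendsto k atTop atTop)
    {μ : ProbabilityMeasure Curve} (hμ : Tendsto (fun i => lawOf (k i) (γ (k i))) atTop (𝓝 μ)) :
    (∀ᵐ c : Curve ∂(μ : Measure Curve), dimH (oB (Set.range c.path)) ≤ 4/3 ∧
      dimH (⋃ x : ℂ, frontier (connectedComponentIn (Set.range c.path)ᶜ x)) ≤ 4/3) ∧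
    ∀ T : Set ℂ, ∀ᵐ c : Curve ∂(μ : Measure Curve),
      (dimH (oB (Set.range c.path) ∩ Sq ∩ T) ≤ dimH T - 2 / 3 ∧
        dimH ((⋃ x : ℂ, frontier (connectedComponentIn (Set.range c.path)ᶜ x)) ∩ Sq ∩ T) ≤
          dimH T - 2 / 3) ∧
      (μH[2 / 3] T = 0 → oB (Set.range c.path) ∩ Sq ∩ T = ∅ ∧
        (⋃ x : ℂ, frontier (connectedComponentIn (Set.range c.path)ᶜ x)) ∩ Sq ∩ T = ∅) := by
  have e23 : ENNReal.ofReal (2 / 3) = 2 / 3 := by
    rw [ENNReal.ofReal_div_of_pos (by norm_num)]; norm_num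
  have hU := Pool.Agent.W424.KI.u3
  constructor
  · filter_upwards [acc_fixed hU hT hk hμ Set.univ, nonconst hT hk hμ, bdry hT hk hμ] with
      c h1 h2 h3
    have key : ∀ S : Set ℂ, S ⊆ (⋃ i : ℕ, Acc (1 / ((i:ℝ) + 1)) c.path) → dimH S ≤ 4/3 := by
      intro S hS
      have h4 : S ⊆ ((⋃ i : ℕ, Acc (1 / ((i:ℝ) + 1)) c.path) ∩ Set.univ ∩ Sq) ∪
          (Set.range c.path \ Sq) := by
        intro w hw
        by_cases hwS : w ∈ Sq
        · exact Or.inl ⟨⟨hS hw, Set.mem_univ _⟩, hwS⟩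
        · obtain ⟨i, hi⟩ := Set.mem_iUnion.1 (hS hw)
          exact Or.inr ⟨hi.1, hwS⟩
      refine (dimH_mono h4).trans ?_
      rw [dimH_union]
      refine max_le (h1.1.trans (le_of_eq univ_dim)) (h3.trans ?_)
      rw [← e43']
      exact ENNReal.ofReal_le_ofReal (by norm_num)
    exact ⟨key _ (oB_acc h2), key _ (frontiers_acc h2)⟩
  · intro T
    filter_upwards [acc_fixed hU hT hk hμ T, nonconst hT hk hμ] with c h1 h2
    have key : ∀ S : Set ℂ, S ⊆ (⋃ i : ℕ, Acc (1 / ((i:ℝ) + 1)) c.path) →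
        S ∩ Sq ∩ T ⊆ (⋃ i : ℕ, Acc (1 / ((i:ℝ) + 1)) c.path) ∩ T ∩ Sq := by
      rintro S hS w ⟨⟨hw1, hw2⟩, hw3⟩
      exact ⟨⟨hS hw1, hw3⟩, hw2⟩
    have k1 := key _ (oB_acc h2)
    have k2 := key _ (frontiers_acc h2)
    constructor
    · rw [← e23]
      exact ⟨(dimH_mono k1).trans h1.1, (dimH_mono k2).trans h1.1⟩
    · intro hT0
      rw [h1.2 hT0] at k1 k2
      exact ⟨Set.subset_empty_iff.1 k1, Set.subset_empty_iff.1 k2⟩

end Pool.Agent.Y997.OB
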